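import Mathlib
import Pool.Agent.Work.MP_73869e_nt.BK.KRem

set_option autoImplicit false

namespace Pool.Agent.Work.MP_73869e_nt.BG

open Finset Pool.Agent.Work.MP_2dba45_nt.BilDef Pool.Agent.Work.MP_2dba45_nt.Bil
  Pool.Agent.Work.MP_73869e_nt.BK

/-- the remainder for `n ≡ c (mod r)`, `D ∣ n ^ 2 + g ^ 2`, with weight `W` on `(N, 2 N]`;
used for `gcd (D, g r) = 1` -/
noncomputable def RemG (W : ℕ → ℝ) (N D g r c : ℕ) : ℝ :=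
  ∑ n ∈ (Ioc N (2 * N)).filter (fun n => n ≡ c [MOD r] ∧ D ∣ n ^ 2 + g ^ 2), W n
    - (#(Rt D) : ℝ) / ((D : ℝ) * r) * ∑ n ∈ Ioc N (2 * N), W n

/-- the bilinear remainder bound of level `N ^ (1 - ε) * N ^ (1 / 12 - ε)` for `n ^ 2 + g ^ 2`,
uniformly in `g ≤ N ^ η` and in all residue classes `c` modulo squarefree `r ≤ N ^ η` -/
def BILG : Prop :=
  ∀ ε : ℝ, 0 < ε → ε < 1 / 100 → ∃ η : ℝ, 0 < η ∧ ∃ c₀ : ℝ, 0 < c₀ ∧ ∃ N₀ : ℕ,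
    ∀ N : ℕ, N₀ ≤ N → ∃ W : ℕ → ℝ, (∀ n, 0 ≤ W n ∧ W n ≤ 1) ∧
      (∀ n, n ≤ N ∨ 2 * N < n → W n = 0) ∧ c₀ * N ≤ ∑ n ∈ Ioc N (2 * N), W n ∧
      ∀ g r c : ℕ, 1 ≤ g → (g : ℝ) ≤ (N : ℝ) ^ η → Squarefree r → (r : ℝ) ≤ (N : ℝ) ^ η →
        ∀ M Q : ℝ, M ≤ (N : ℝ) ^ (1 - ε) → Q ≤ (N : ℝ) ^ (1 / 12 - ε) →
          ∀ b : ℕ → ℝ, (∀ q, |b q| ≤ 1) →
            ∑ m ∈ (Icc 1 ⌊M⌋₊).filter (fun m => m.Coprime (g * r)),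
              |∑ q ∈ (Icc 1 ⌊Q⌋₊).filter (fun q => Squarefree q ∧ q.Coprime (2 * m * (g * r))),
                b q * RemG W N (m * q) g r c| ≤ (N : ℝ) ^ (1 - η)

/-- the shift: `m q r₁ x ≡ c (mod r₂)` -/
noncomputable def xs (r₁ r₂ c m q : ℕ) : ℕ := ((c : ZMod r₂) * ((m * q * r₁ : ℕ) : ZMod r₂)⁻¹).val

theorem xs_spec (r₁ r₂ c m q : ℕ) (hr2 : 1 ≤ r₂) (h : (m * q * r₁).Coprime r₂) :
    m * q * r₁ * xs r₁ r₂ c m q ≡ c [MOD r₂] := by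
  haveI : NeZero r₂ := ⟨by omega⟩
  rw [← ZMod.natCast_eq_natCast_iff]
  unfold xs
  rw [Nat.cast_mul, ZMod.natCast_zmod_val]
  have h1 : (((m * q * r₁ : ℕ) : ZMod r₂)) * ((m * q * r₁ : ℕ) : ZMod r₂)⁻¹ = 1 := by
    apply ZMod.coe_mul_inv_eq_one
    exact h
  calc (((m * q * r₁ : ℕ) : ZMod r₂)) * ((c : ZMod r₂) * ((m * q * r₁ : ℕ) : ZMod r₂)⁻¹)
      = (c : ZMod r₂) * ((((m * q * r₁ : ℕ) : ZMod r₂)) * ((m * q * r₁ : ℕ) : ZMod r₂)⁻¹) := by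
        ring
    _ = c := by rw [h1, mul_one]

theorem xs_mod (r₁ r₂ c m q : ℕ) : xs r₁ r₂ c (m % r₂) q = xs r₁ r₂ c m q := by
  unfold xs
  have : (((m % r₂) * q * r₁ : ℕ) : ZMod r₂) = ((m * q * r₁ : ℕ) : ZMod r₂) := by
    push_cast
    rw [ZMod.natCast_mod]
  rw [this]

/-- the residue class of `n` modulo `m q r` -/
noncomputable def nG (m ω q σ g r₁ r₂ c₁ c : ℕ) : ℕ :=
  g * nuS m ω q σ (r₁ * r₂) c₁ + m * q * r₁ * xs r₁ r₂ c m q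

theorem modEq_nG_iff (m ω q σ g r₁ r₂ c₁ c n : ℕ) (hr2 : 1 ≤ r₂) (hmq : m.Coprime q)
    (hmr : (m * q).Coprime (r₁ * r₂)) (hrr : r₁.Coprime r₂) (hg2 : r₂ ∣ g)
    (hc : g * c₁ ≡ c [MOD r₁]) :
    n ≡ nG m ω q σ g r₁ r₂ c₁ c [MOD m * q * (r₁ * r₂)] ↔
      n ≡ g * ω [MOD m] ∧ n ≡ g * σ [MOD q] ∧ n ≡ c [MOD r₁ * r₂] := by
  obtain ⟨h1, h2, h3⟩ := nuS_spec m ω q σ (r₁ * r₂) c₁ hmq hmr
  have hx := xs_spec r₁ r₂ c m q hr2 (by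
    rw [Nat.coprime_mul_iff_left]
    exact ⟨(Nat.coprime_mul_iff_right.1 hmr).2, hrr⟩)
  set x := xs r₁ r₂ c m q with hxdef
  set ν := nuS m ω q σ (r₁ * r₂) c₁ with hν
  have e1 : nG m ω q σ g r₁ r₂ c₁ c ≡ g * ω [MOD m] := by
    unfold nG
    rw [← hν, ← hxdef]
    have a1 : g * ν ≡ g * ω [MOD m] := Nat.ModEq.mul_left g h1
    have a2 : m * q * r₁ * x ≡ 0 [MOD m] := by
      rw [Nat.modEq_zero_iff_dvd]
      exact ⟨q * r₁ * x, by ring⟩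
    simpa using a1.add a2
  have e2 : nG m ω q σ g r₁ r₂ c₁ c ≡ g * σ [MOD q] := by
    unfold nG
    rw [← hν, ← hxdef]
    have a1 : g * ν ≡ g * σ [MOD q] := Nat.ModEq.mul_left g h2
    have a2 : m * q * r₁ * x ≡ 0 [MOD q] := by
      rw [Nat.modEq_zero_iff_dvd]
      exact ⟨m * r₁ * x, by ring⟩
    simpa using a1.add a2
  have e3 : nG m ω q σ g r₁ r₂ c₁ c ≡ c [MOD r₁] := by
    unfold nG
    rw [← hν, ← hxdef]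
    have a1 : g * ν ≡ g * c₁ [MOD r₁] := Nat.ModEq.mul_left g (h3.of_mul_right r₂)
    have a2 : m * q * r₁ * x ≡ 0 [MOD r₁] := by
      rw [Nat.modEq_zero_iff_dvd]
      exact ⟨m * q * x, by ring⟩
    have a3 := a1.add a2
    rw [add_zero] at a3
    exact a3.trans hc
  have e4 : nG m ω q σ g r₁ r₂ c₁ c ≡ c [MOD r₂] := by
    unfold nG
    rw [← hν, ← hxdef]
    have a1 : g * ν ≡ 0 [MOD r₂] := by
      rw [Nat.modEq_zero_iff_dvd]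
      exact hg2.mul_right _
    have a3 := a1.add hx
    rw [zero_add] at a3
    exact a3
  have e5 : nG m ω q σ g r₁ r₂ c₁ c ≡ c [MOD r₁ * r₂] :=
    (Nat.modEq_and_modEq_iff_modEq_mul hrr).1 ⟨e3, e4⟩
  rw [← Nat.modEq_and_modEq_iff_modEq_mul hmr, ← Nat.modEq_and_modEq_iff_modEq_mul hmq]
  constructor
  · rintro ⟨⟨a, b⟩, d⟩
    exact ⟨a.trans e1, b.trans e2, d.trans e5⟩
  · rintro ⟨a, b, d⟩
    exact ⟨⟨a.trans e1.symm, b.trans e2.symm⟩, d.trans e5.symm⟩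

end Pool.Agent.Work.MP_73869e_nt.BG
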