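import Mathlib
import Pool.Agent.Work.MP_2dba45_nt.BilBlk
import Pool.Agent.Work.MP_73869e_nt.BK.KIn
import Pool.Agent.Work.MP_73869e_nt.BK.KRem

set_option autoImplicit false

namespace Pool.Agent.Work.MP_73869e_nt.BG

open Finset Pool.Agent.Work.MP_2dba45_nt.BilDef Pool.Agent.Work.MP_2dba45_nt.Bil
  Pool.Agent.Work.MP_73869e_nt.BK

/-- the square of the main sum -/
theorem t1_sqG (hW : WeilBound) (δ : ℝ) (hδ : 0 < δ) : ∃ C : ℝ, 1 ≤ C ∧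
    ∀ (j K N g r c M Q H : ℕ) (β : ℕ × ℕ × ℤ → ℂ), 1 ≤ j → 1 ≤ K → j * K ≤ N → 1 ≤ r → r ≤ N →
      2 ≤ M → M ≤ N → 1 ≤ Q → Q ≤ N → 1 ≤ H → 1 ≤ g → g * H ≤ N → (∀ t, ‖β t‖ ≤ 1) →
      (∑ m ∈ (Ico M (2 * M)).filter (fun m => m.Coprime r),
        ‖∑ t ∈ (TT Q r H).filter (fun t => m.Coprime t.1), β t *
          ∑ ω ∈ Rt m, XK j K N g r c m ω t.1 t.2.1 t.2.2‖) ^ 2 ≤
      C * ((N : ℝ) ^ δ) ^ 4 * ((K : ℝ) / (M * Q * r)) ^ 2 * M *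
        (Q * M * H + (1 + 4 * Real.pi * N * H / ((M : ℝ) * Q * r)) ^ 2 *
          (1 + 18 * ((g * H : ℕ) : ℝ) / (Q * Real.sqrt M)) * (Q : ℝ) ^ 3 * r * (M : ℝ) ^ (3 / 4 : ℝ) * H ^ 2 * g) := by
  classical
  obtain ⟨C₁, hC₁, hin⟩ := innerK hW δ hδ
  obtain ⟨C₂, hC₂, hTT⟩ := sum_TT δ hδ
  obtain ⟨C₃, hC₃, hdg⟩ := diag_card δ hδ
  obtain ⟨C₄, hC₄, hrho⟩ := rho_sum δ hδ
  refine ⟨C₄ * (C₃ * C₄ + C₁ * C₂ ^ 2), ?_, ?_⟩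
  · have h1 : (1 : ℝ) ≤ C₃ * C₄ := one_le_mul_of_one_le_of_one_le hC₃ hC₄
    have h2 : 0 ≤ C₁ * C₂ ^ 2 := by positivity
    exact one_le_mul_of_one_le_of_one_le hC₄ (by linarith)
  intro j K N g r c M Q H β hj hK hjK hr hrN hM hMN hQ hQN hH hg hgH hb
  have hHN : H ≤ N := (Nat.le_mul_of_pos_left H hg).trans hgH
  have hN1 : (1 : ℝ) ≤ N := by exact_mod_cast (by omega : 1 ≤ N)
  set u : ℝ := (N : ℝ) ^ δ with hu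
  have hu1 : 1 ≤ u := Real.one_le_rpow hN1 hδ.le
  set κ : ℝ := (K : ℝ) / (M * Q * r) with hκ
  set A : ℝ := 1 + 4 * Real.pi * N * H / ((M : ℝ) * Q * r) with hA
  set B : ℝ := 1 + 18 * ((g * H : ℕ) : ℝ) / (Q * Real.sqrt M) with hB
  set G : ℝ := (M : ℝ) ^ (3 / 4 : ℝ) with hG
  have hκ0 : 0 ≤ κ := by positivity
  have hA0 : 0 ≤ A := by positivity
  have hB0 : 0 ≤ B := by positivity
  have hG0 : 0 ≤ G := by positivity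
  have hQu : (Q : ℝ) ^ (1 + δ) ≤ Q * u := by
    have hQ0 : (0 : ℝ) < Q := by exact_mod_cast hQ
    rw [Real.rpow_add hQ0, Real.rpow_one]
    have : (Q : ℝ) ^ δ ≤ u := Real.rpow_le_rpow hQ0.le (by exact_mod_cast hQN) hδ.le
    gcongr
  have hcs := cs_expand ((Ico M (2 * M)).filter (fun m => m.Coprime r)) (fun m => Rt m)
    (TT Q r H) (fun m t => m.Coprime t.1) β hb
    (fun m ω t => XK j K N g r c m ω t.1 t.2.1 t.2.2)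
  refine hcs.trans ?_
  have hS1 : (∑ m ∈ (Ico M (2 * M)).filter (fun m => m.Coprime r), (#(Rt m) : ℝ)) ≤
      C₄ * M * u := by
    refine (sum_le_sum_of_subset_of_nonneg (filter_subset _ _) ?_).trans (hrho M N (by omega) hMN)
    intro i _ _
    positivity
  -- bound for each pair
  set I : (ℕ × ℕ × ℤ) → (ℕ × ℕ × ℤ) → ℝ := fun t₁ t₂ =>
    ‖∑ m ∈ ((Ico M (2 * M)).filter (fun m => m.Coprime r)).filter
      (fun m => m.Coprime t₁.1 ∧ m.Coprime t₂.1), ∑ ω ∈ Rt m,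
        XK j K N g r c m ω t₁.1 t₁.2.1 t₁.2.2 *
          (starRingEnd ℂ) (XK j K N g r c m ω t₂.1 t₂.2.1 t₂.2.2)‖ with hI
  have hfil : ∀ t₁ t₂ : ℕ × ℕ × ℤ, ((Ico M (2 * M)).filter (fun m => m.Coprime r)).filter
      (fun m => m.Coprime t₁.1 ∧ m.Coprime t₂.1) =
      (Ico M (2 * M)).filter (fun m => m.Coprime (t₁.1 * t₂.1 * r)) := by
    intro t₁ t₂
    rw [filter_filter]
    refine filter_congr fun m _ => ?_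
    rw [Nat.coprime_mul_iff_right, Nat.coprime_mul_iff_right]
    tauto
  have hdiag : ∀ t₁ ∈ TT Q r H, ∀ t₂ ∈ TT Q r H, I t₁ t₂ ≤ C₄ * M * u * κ ^ 2 := by
    intro t₁ h₁ t₂ h₂
    rw [hI]
    simp only
    rw [hfil]
    refine (inner_trivK j K N g r c M Q H t₁.1 t₁.2.1 t₂.1 t₂.2.1 t₁.2.2 t₂.2.2 hj hK hjK hr
      (by omega) hQ h₁ h₂).trans ?_
    have := hrho M N (by omega) hMN
    gcongr
  have hoff : ∀ t₁ ∈ TT Q r H, ∀ t₂ ∈ TT Q r H, t₁.2.2 * (t₂.1 : ℤ) ≠ t₂.2.2 * (t₁.1 : ℤ) →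
      I t₁ t₂ ≤ C₁ * u * κ ^ 2 * A ^ 2 * B * (Q * r * G) *
        (g * (Real.sqrt ((Nat.gcd t₁.1 t₁.2.2.natAbs : ℕ) : ℝ) *
          Real.sqrt ((Nat.gcd t₂.1 t₂.2.2.natAbs : ℕ) : ℝ))) := by
    intro t₁ h₁ t₂ h₂ hne
    rw [hI]
    simp only
    rw [hfil]
    refine hin j K N g r c M Q H t₁.1 t₁.2.1 t₂.1 t₂.2.1 t₁.2.2 t₂.2.2 hj hK hjK hr hrN hM hMN hQ
      hQN hH hg hgH h₁ h₂ ?_
    intro h0
    exact hne (by linarith)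
  have hsplit : ∑ t₁ ∈ TT Q r H, ∑ t₂ ∈ TT Q r H, I t₁ t₂ ≤
      C₃ * (Q * u) * H * (C₄ * M * u * κ ^ 2) +
        C₁ * u * κ ^ 2 * A ^ 2 * B * (Q * r * G) * (g * (C₂ * (Q * u) * H) ^ 2) := by
    have h1 : ∀ t₁ ∈ TT Q r H, ∀ t₂ ∈ TT Q r H, I t₁ t₂ ≤
        (if t₁.2.2 * (t₂.1 : ℤ) = t₂.2.2 * (t₁.1 : ℤ) then C₄ * M * u * κ ^ 2 else 0) +
          C₁ * u * κ ^ 2 * A ^ 2 * B * (Q * r * G) *
          (g * (Real.sqrt ((Nat.gcd t₁.1 t₁.2.2.natAbs : ℕ) : ℝ) *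
            Real.sqrt ((Nat.gcd t₂.1 t₂.2.2.natAbs : ℕ) : ℝ))) := by
      intro t₁ h₁ t₂ h₂
      by_cases hc : t₁.2.2 * (t₂.1 : ℤ) = t₂.2.2 * (t₁.1 : ℤ)
      · rw [if_pos hc]
        have := hdiag t₁ h₁ t₂ h₂
        have h3 : 0 ≤ C₁ * u * κ ^ 2 * A ^ 2 * B * (Q * r * G) *
          (g * (Real.sqrt ((Nat.gcd t₁.1 t₁.2.2.natAbs : ℕ) : ℝ) *
            Real.sqrt ((Nat.gcd t₂.1 t₂.2.2.natAbs : ℕ) : ℝ))) := by positivity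
        linarith
      · rw [if_neg hc, zero_add]
        exact hoff t₁ h₁ t₂ h₂ hc
    refine (sum_le_sum fun t₁ h₁ => sum_le_sum fun t₂ h₂ => h1 t₁ h₁ t₂ h₂).trans ?_
    simp only [sum_add_distrib]
    refine add_le_add ?_ ?_
    · rw [← sum_product' (f := fun t₁ t₂ : ℕ × ℕ × ℤ =>
        (if t₁.2.2 * (t₂.1 : ℤ) = t₂.2.2 * (t₁.1 : ℤ) then C₄ * M * u * κ ^ 2 else 0))]
      rw [← sum_filter, sum_const, nsmul_eq_mul]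
      have h4 := hdg Q r H hQ hr
      have h5 : (0 : ℝ) ≤ C₄ * M * u * κ ^ 2 := by positivity
      refine mul_le_mul_of_nonneg_right (h4.trans ?_) h5
      have h6 : (0 : ℝ) ≤ H := by positivity
      gcongr
    · have h7 : ∑ t₁ ∈ TT Q r H, ∑ t₂ ∈ TT Q r H, C₁ * u * κ ^ 2 * A ^ 2 * B * (Q * r * G) *
          (g * (Real.sqrt ((Nat.gcd t₁.1 t₁.2.2.natAbs : ℕ) : ℝ) *
            Real.sqrt ((Nat.gcd t₂.1 t₂.2.2.natAbs : ℕ) : ℝ))) =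
          C₁ * u * κ ^ 2 * A ^ 2 * B * (Q * r * G) *
            (g * (∑ t ∈ TT Q r H, Real.sqrt ((Nat.gcd t.1 t.2.2.natAbs : ℕ) : ℝ)) ^ 2) := by
        rw [sq (∑ t ∈ TT Q r H, Real.sqrt ((Nat.gcd t.1 t.2.2.natAbs : ℕ) : ℝ)), sum_mul_sum,
          mul_sum, mul_sum]
        refine sum_congr rfl fun t₁ _ => ?_
        rw [mul_sum, mul_sum]
      rw [h7]
      have h8 := hTT Q r H hQ hr
      have h9 : (∑ t ∈ TT Q r H, Real.sqrt ((Nat.gcd t.1 t.2.2.natAbs : ℕ) : ℝ)) ≤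
          C₂ * (Q * u) * H := by
        refine h8.trans ?_
        gcongr
      have h10 : 0 ≤ ∑ t ∈ TT Q r H, Real.sqrt ((Nat.gcd t.1 t.2.2.natAbs : ℕ) : ℝ) :=
        sum_nonneg fun t _ => Real.sqrt_nonneg _
      gcongr
  have hS2 : 0 ≤ ∑ t₁ ∈ TT Q r H, ∑ t₂ ∈ TT Q r H, I t₁ t₂ :=
    sum_nonneg fun t₁ _ => sum_nonneg fun t₂ _ => norm_nonneg _
  calc (∑ m ∈ (Ico M (2 * M)).filter (fun m => m.Coprime r), (#(Rt m) : ℝ)) *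
        ∑ t₁ ∈ TT Q r H, ∑ t₂ ∈ TT Q r H, I t₁ t₂
      ≤ (C₄ * M * u) * (C₃ * (Q * u) * H * (C₄ * M * u * κ ^ 2) +
        C₁ * u * κ ^ 2 * A ^ 2 * B * (Q * r * G) * (g * (C₂ * (Q * u) * H) ^ 2)) := by
        apply mul_le_mul hS1 hsplit hS2
        positivity
    _ = (C₄ * κ ^ 2 * M) * (C₃ * C₄ * u ^ 3 * (Q * M * H) +
          C₁ * C₂ ^ 2 * u ^ 4 * (A ^ 2 * B * (Q : ℝ) ^ 3 * r * G * H ^ 2 * g)) := by ring
    _ ≤ (C₄ * κ ^ 2 * M) * ((C₃ * C₄ + C₁ * C₂ ^ 2) * u ^ 4 * (Q * M * H) +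
          (C₃ * C₄ + C₁ * C₂ ^ 2) * u ^ 4 * (A ^ 2 * B * (Q : ℝ) ^ 3 * r * G * H ^ 2 * g)) := by
        have e1 : C₃ * C₄ * u ^ 3 ≤ (C₃ * C₄ + C₁ * C₂ ^ 2) * u ^ 4 := by
          have : u ^ 3 ≤ u ^ 4 := pow_le_pow_right₀ hu1 (by norm_num)
          have h11 : C₃ * C₄ ≤ C₃ * C₄ + C₁ * C₂ ^ 2 := by
            have : 0 ≤ C₁ * C₂ ^ 2 := by positivity
            linarith
          gcongr
        have e2 : C₁ * C₂ ^ 2 * u ^ 4 ≤ (C₃ * C₄ + C₁ * C₂ ^ 2) * u ^ 4 := by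
          have : 0 ≤ C₃ * C₄ := by positivity
          gcongr
          linarith
        gcongr
    _ = C₄ * (C₃ * C₄ + C₁ * C₂ ^ 2) * u ^ 4 * κ ^ 2 * M *
        (Q * M * H + A ^ 2 * B * (Q : ℝ) ^ 3 * r * G * H ^ 2 * g) := by ring

end Pool.Agent.Work.MP_73869e_nt.BG
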