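import Mathlib
import Pool.Agent.Work.MP_73869e_nt.BG.GDef

set_option autoImplicit false

namespace Pool.Agent.Work.MP_73869e_nt.BG

open Finset Pool.Agent.Work.MP_2dba45_nt.BilDef Pool.Agent.Work.MP_2dba45_nt.Bil
  Pool.Agent.Work.MP_73869e_nt.BK

/-- the twist -/
noncomputable def tw (r₁ r₂ c m q : ℕ) (h : ℤ) : ℂ := ee (-((h : ℝ) * xs r₁ r₂ c m q / r₂))

theorem norm_tw (r₁ r₂ c m q : ℕ) (h : ℤ) : ‖tw r₁ r₂ c m q h‖ = 1 := by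
  unfold tw
  exact norm_ee _

theorem rem_eqG (j K N g m q r₁ r₂ c₁ c : ℕ) (hj : 2 ≤ j) (hK : 1 ≤ K) (hjK : j * K ≤ N)
    (hm : 1 ≤ m) (hq : 1 ≤ q) (hr1 : 1 ≤ r₁) (hr2 : 1 ≤ r₂) (hmg : m.Coprime g) (hqg : q.Coprime g)
    (hmq : m.Coprime q) (hmr : (m * q).Coprime (r₁ * r₂)) (hrr : r₁.Coprime r₂) (hg2 : r₂ ∣ g)
    (hc : g * c₁ ≡ c [MOD r₁]) :
    RemG (W j K N) N (m * q) g (r₁ * r₂) c = ∑ ω ∈ Rt m, ∑ σ ∈ Rt q,
      ((∑ n ∈ (Ioc N (2 * N)).filter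
        (fun n => n ≡ nG m ω q σ g r₁ r₂ c₁ c [MOD m * q * (r₁ * r₂)]), W j K N n)
        - K / ((m : ℝ) * q * ((r₁ * r₂ : ℕ) : ℝ))) := by
  have hr : 1 ≤ r₁ * r₂ := Nat.mul_pos hr1 hr2
  unfold RemG
  rw [sum_W j K N (by omega) hK hjK, RemAux.card_Rt_mul m q hm hq hmq]
  have h1 : ∑ ω ∈ Rt m, ∑ σ ∈ Rt q, ((∑ n ∈ (Ioc N (2 * N)).filter
      (fun n => n ≡ nG m ω q σ g r₁ r₂ c₁ c [MOD m * q * (r₁ * r₂)]), W j K N n)
        - K / ((m : ℝ) * q * ((r₁ * r₂ : ℕ) : ℝ))) =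
      (∑ ω ∈ Rt m, ∑ σ ∈ Rt q, (∑ n ∈ (Ioc N (2 * N)).filter
      (fun n => n ≡ nG m ω q σ g r₁ r₂ c₁ c [MOD m * q * (r₁ * r₂)]), W j K N n)) -
      (#(Rt m) : ℝ) * #(Rt q) * (K / ((m : ℝ) * q * ((r₁ * r₂ : ℕ) : ℝ))) := by
    simp only [sum_sub_distrib, sum_const, nsmul_eq_mul]
    ring
  rw [h1]
  have h2 : ∑ ω ∈ Rt m, ∑ σ ∈ Rt q, (∑ n ∈ (Ioc N (2 * N)).filter
      (fun n => n ≡ nG m ω q σ g r₁ r₂ c₁ c [MOD m * q * (r₁ * r₂)]), W j K N n) =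
      ∑ n ∈ (Ioc N (2 * N)).filter (fun n => n ≡ c [MOD r₁ * r₂] ∧ m * q ∣ n ^ 2 + g ^ 2),
        W j K N n := by
    simp only [sum_filter]
    have h3 : ∀ ω ∈ Rt m, ∑ σ ∈ Rt q, ∑ n ∈ Ioc N (2 * N),
        (if n ≡ nG m ω q σ g r₁ r₂ c₁ c [MOD m * q * (r₁ * r₂)] then W j K N n else 0) =
        ∑ n ∈ Ioc N (2 * N), if n ≡ g * ω [MOD m] then
          (if q ∣ n ^ 2 + g ^ 2 then (if n ≡ c [MOD r₁ * r₂] then W j K N n else 0) else 0)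
            else 0 := by
      intro ω _
      rw [sum_comm]
      refine sum_congr rfl fun n _ => ?_
      rw [← sum_RtK q g n hq hqg]
      by_cases hω : n ≡ g * ω [MOD m]
      · rw [if_pos hω]
        refine sum_congr rfl fun σ _ => ?_
        by_cases hσ : n ≡ g * σ [MOD q]
        · rw [if_pos hσ]
          by_cases hcn : n ≡ c [MOD r₁ * r₂]
          · rw [if_pos hcn, if_pos ((modEq_nG_iff m ω q σ g r₁ r₂ c₁ c n hr2 hmq hmr hrr hg2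
              hc).2 ⟨hω, hσ, hcn⟩)]
          · rw [if_neg hcn, if_neg]
            exact fun h => hcn ((modEq_nG_iff m ω q σ g r₁ r₂ c₁ c n hr2 hmq hmr hrr hg2 hc).1
              h).2.2
        · rw [if_neg hσ, if_neg]
          exact fun h => hσ ((modEq_nG_iff m ω q σ g r₁ r₂ c₁ c n hr2 hmq hmr hrr hg2 hc).1
            h).2.1
      · rw [if_neg hω]
        refine sum_eq_zero fun σ _ => ?_
        rw [if_neg]
        exact fun h => hω ((modEq_nG_iff m ω q σ g r₁ r₂ c₁ c n hr2 hmq hmr hrr hg2 hc).1 h).1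
    rw [sum_congr rfl h3, sum_comm]
    refine sum_congr rfl fun n _ => ?_
    rw [sum_RtK m g n hm hmg]
    by_cases hmn : m ∣ n ^ 2 + g ^ 2
    · by_cases hqn : q ∣ n ^ 2 + g ^ 2
      · have : m * q ∣ n ^ 2 + g ^ 2 := hmq.mul_dvd_of_dvd_of_dvd hmn hqn
        by_cases hcn : n ≡ c [MOD r₁ * r₂]
        · rw [if_pos hmn, if_pos hqn, if_pos hcn, if_pos ⟨hcn, this⟩]
        · rw [if_pos hmn, if_pos hqn, if_neg hcn, if_neg]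
          exact fun h => hcn h.1
      · rw [if_pos hmn, if_neg hqn, if_neg]
        exact fun h => hqn ((dvd_mul_left q m).trans h.2)
    · rw [if_neg hmn, if_neg]
      exact fun h => hmn ((dvd_mul_right m q).trans h.2)
  rw [h2]
  push_cast
  ring

theorem rem_truncG (j K N g m q r₁ r₂ c₁ c H : ℕ) (hj : 2 ≤ j) (hK : 1 ≤ K) (hjK : j * K ≤ N)
    (hm : 1 ≤ m) (hq : 1 ≤ q) (hr1 : 1 ≤ r₁) (hr2 : 1 ≤ r₂) (hmg : m.Coprime g) (hqg : q.Coprime g)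
    (hmq : m.Coprime q) (hmr : (m * q).Coprime (r₁ * r₂)) (hrr : r₁.Coprime r₂) (hg2 : r₂ ∣ g)
    (hc : g * c₁ ≡ c [MOD r₁]) (hH : 1 ≤ H) (h2 : 2 * H < m * q * (r₁ * r₂)) :
    ‖(RemG (W j K N) N (m * q) g (r₁ * r₂) c : ℂ)
      - ∑ ω ∈ Rt m, ∑ σ ∈ Rt q, ∑ h ∈ Hs H, tw r₁ r₂ c m q h * XK j K N g (r₁ * r₂) c₁ m ω q σ h‖
      ≤ (#(Rt m) : ℝ) * #(Rt q) *
        ((m : ℝ) * q * ((r₁ * r₂ : ℕ) : ℝ) / (2 * K * H)) ^ (j - 1) := by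
  have hr : 1 ≤ r₁ * r₂ := Nat.mul_pos hr1 hr2
  rw [rem_eqG j K N g m q r₁ r₂ c₁ c hj hK hjK hm hq hr1 hr2 hmg hqg hmq hmr hrr hg2 hc]
  set r := r₁ * r₂ with hrdef
  push_cast
  rw [← sum_sub_distrib]
  simp only [← sum_sub_distrib]
  have hm0 : (m : ℝ) ≠ 0 := by exact_mod_cast (by omega : m ≠ 0)
  have hq0 : (q : ℝ) ≠ 0 := by exact_mod_cast (by omega : q ≠ 0)
  have hr10 : (r₁ : ℝ) ≠ 0 := by exact_mod_cast (by omega : r₁ ≠ 0)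
  have hr20 : (r₂ : ℝ) ≠ 0 := by exact_mod_cast (by omega : r₂ ≠ 0)
  have hterm : ∀ ω ∈ Rt m, ∀ σ ∈ Rt q,
      ‖((∑ n ∈ (Ioc N (2 * N)).filter (fun n => n ≡ nG m ω q σ g r₁ r₂ c₁ c [MOD m * q * r]),
        (W j K N n : ℂ)) - (K : ℂ) / ((m : ℂ) * q * r)) -
        ∑ h ∈ Hs H, tw r₁ r₂ c m q h * XK j K N g r c₁ m ω q σ h‖ ≤
        ((m : ℝ) * q * r / (2 * K * H)) ^ (j - 1) := by
    intro ω _ σ _
    have h1 := trunc j K N (m * q * r) (nG m ω q σ g r₁ r₂ c₁ c) H hj hK hjK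
      (by positivity) hH h2
    push_cast at h1
    have h3 : ∑ h ∈ Hs H, tw r₁ r₂ c m q h * XK j K N g r c₁ m ω q σ h =
        1 / ((m : ℂ) * q * r) * ∑ h ∈ Hs H,
        What j K N ((h : ℝ) / ((m : ℝ) * q * r)) *
          ee (-(h * (nG m ω q σ g r₁ r₂ c₁ c : ℝ) / ((m : ℝ) * q * r))) := by
      rw [mul_sum]
      refine sum_congr rfl fun h _ => ?_
      unfold XK tw
      have e1 : -(h * (nG m ω q σ g r₁ r₂ c₁ c : ℝ) / ((m : ℝ) * q * r)) =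
          -((h : ℝ) * xs r₁ r₂ c m q / r₂) +
            -(((g * h : ℤ) : ℝ) * nuS m ω q σ r c₁ / ((m : ℝ) * q * r)) := by
        unfold nG
        rw [hrdef]
        push_cast
        field_simp
        ring
      rw [e1, ee_add]
      ring
    rw [h3]
    exact h1
  calc ‖∑ ω ∈ Rt m, ∑ σ ∈ Rt q, (((∑ n ∈ (Ioc N (2 * N)).filter
        (fun n => n ≡ nG m ω q σ g r₁ r₂ c₁ c [MOD m * q * r]),
        (W j K N n : ℂ)) - (K : ℂ) / ((m : ℂ) * q * r)) -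
        ∑ h ∈ Hs H, tw r₁ r₂ c m q h * XK j K N g r c₁ m ω q σ h)‖
      ≤ ∑ ω ∈ Rt m, ∑ σ ∈ Rt q, ((m : ℝ) * q * r / (2 * K * H)) ^ (j - 1) := by
        refine (norm_sum_le _ _).trans (sum_le_sum fun ω hω => ?_)
        exact (norm_sum_le _ _).trans (sum_le_sum fun σ hσ => hterm ω hω σ hσ)
    _ = (#(Rt m) : ℝ) * #(Rt q) * ((m : ℝ) * q * r / (2 * K * H)) ^ (j - 1) := by
        simp only [sum_const, nsmul_eq_mul]
        ring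

theorem rem_smallG (j K N g m q r₁ r₂ c₁ c : ℕ) (hj : 2 ≤ j) (hK : 1 ≤ K) (hjK : j * K ≤ N)
    (hm : 1 ≤ m) (hq : 1 ≤ q) (hr1 : 1 ≤ r₁) (hr2 : 1 ≤ r₂) (hmg : m.Coprime g) (hqg : q.Coprime g)
    (hmq : m.Coprime q) (hmr : (m * q).Coprime (r₁ * r₂)) (hrr : r₁.Coprime r₂) (hg2 : r₂ ∣ g)
    (hc : g * c₁ ≡ c [MOD r₁]) :
    |RemG (W j K N) N (m * q) g (r₁ * r₂) c|
      ≤ (#(Rt m) : ℝ) * #(Rt q) *
        (2 * ((m : ℝ) * q * ((r₁ * r₂ : ℕ) : ℝ) / (2 * K)) ^ (j - 1)) := by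
  have hr : 1 ≤ r₁ * r₂ := Nat.mul_pos hr1 hr2
  rw [rem_eqG j K N g m q r₁ r₂ c₁ c hj hK hjK hm hq hr1 hr2 hmg hqg hmq hmr hrr hg2 hc]
  set r := r₁ * r₂ with hrdef
  have hterm : ∀ ω ∈ Rt m, ∀ σ ∈ Rt q,
      |(∑ n ∈ (Ioc N (2 * N)).filter
        (fun n => n ≡ nG m ω q σ g r₁ r₂ c₁ c [MOD m * q * r]), W j K N n)
        - K / ((m : ℝ) * q * r)| ≤ 2 * ((m : ℝ) * q * r / (2 * K)) ^ (j - 1) := by
    intro ω _ σ _
    have h1 := trunc_zero j K N (m * q * r) (nG m ω q σ g r₁ r₂ c₁ c) hj hK hjK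
      (by positivity)
    push_cast at h1
    exact h1
  calc |∑ ω ∈ Rt m, ∑ σ ∈ Rt q,
      ((∑ n ∈ (Ioc N (2 * N)).filter (fun n => n ≡ nG m ω q σ g r₁ r₂ c₁ c [MOD m * q * r]),
        W j K N n) - K / ((m : ℝ) * q * r))|
      ≤ ∑ ω ∈ Rt m, ∑ σ ∈ Rt q, (2 * ((m : ℝ) * q * r / (2 * K)) ^ (j - 1)) := by
        refine (abs_sum_le_sum_abs _ _).trans (sum_le_sum fun ω hω => ?_)
        exact (abs_sum_le_sum_abs _ _).trans (sum_le_sum fun σ hσ => hterm ω hω σ hσ)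
    _ = (#(Rt m) : ℝ) * #(Rt q) * (2 * ((m : ℝ) * q * r / (2 * K)) ^ (j - 1)) := by
        simp only [sum_const, nsmul_eq_mul]
        ring

end Pool.Agent.Work.MP_73869e_nt.BG
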