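import Mathlib
import Pool.Agent.Work.MP_73869e_nt.BK.KFin
import Pool.Agent.Work.MP_73869e_nt.BG.GBlk
import Pool.Agent.Work.MP_73869e_nt.BG.GRem

set_option autoImplicit false

namespace Pool.Agent.Work.MP_73869e_nt.BG

open Finset Filter Pool.Agent.Work.MP_2dba45_nt.BilDef Pool.Agent.Work.MP_2dba45_nt.Bil
  Pool.Agent.Work.MP_73869e_nt.BK

open Classical in
/-- `RemG` restricted to moduli prime to `g` and a class of `m` -/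
noncomputable def fG (W : ℕ → ℝ) (N g r₁ r₂ c μ m q : ℕ) : ℝ :=
  if m.Coprime g ∧ q.Coprime g ∧ m % r₂ = μ then RemG W N (m * q) g (r₁ * r₂) c else 0

open Classical in
/-- truncated Fourier expansion of `fG` -/
noncomputable def FG (j K N g r₁ r₂ c₁ c μ H m q : ℕ) : ℂ :=
  if m.Coprime g ∧ q.Coprime g ∧ m % r₂ = μ then
    ∑ ω ∈ Rt m, ∑ σ ∈ Rt q, ∑ h ∈ Hs H, tw r₁ r₂ c m q h * XK j K N g (r₁ * r₂) c₁ m ω q σ h
  else 0

/-- the conditions on the modulus -/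
structure Adm (g r₁ r₂ c₁ c : ℕ) : Prop where
  h1 : 1 ≤ r₁
  h2 : 1 ≤ r₂
  hrr : r₁.Coprime r₂
  hg2 : r₂ ∣ g
  hc : g * c₁ ≡ c [MOD r₁]

theorem fG_small (j K N g r₁ r₂ c₁ c μ M Q m q : ℕ) (hA : Adm g r₁ r₂ c₁ c) (hj : 2 ≤ j)
    (hK : 1 ≤ K) (hjK : j * K ≤ N)
    (hM : 1 ≤ M) (hQ : 1 ≤ Q) (hm : m ∈ Ico M (2 * M)) (hq : q ∈ Ico Q (2 * Q))
    (hmr : m.Coprime (r₁ * r₂)) (hq2 : q.Coprime (2 * m * (r₁ * r₂))) :
    |fG (W j K N) N g r₁ r₂ c μ m q| ≤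
      (#(Rt m) : ℝ) * #(Rt q) * (2 * ((m : ℝ) * q * ((r₁ * r₂ : ℕ) : ℝ) / (2 * K)) ^ (j - 1)) := by
  unfold fG
  split_ifs with h
  · rw [mem_Ico] at hm hq
    rw [Nat.coprime_mul_iff_right, Nat.coprime_mul_iff_right] at hq2
    exact rem_smallG j K N g m q r₁ r₂ c₁ c hj hK hjK (by omega) (by omega) hA.h1 hA.h2 h.1 h.2.1
      hq2.1.2.symm (Nat.coprime_mul_iff_left.2 ⟨hmr, hq2.2⟩) hA.hrr hA.hg2 hA.hc
  · rw [abs_zero]
    positivity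

theorem fG_trunc (j K N g r₁ r₂ c₁ c μ M Q m q H : ℕ) (hA : Adm g r₁ r₂ c₁ c) (hj : 2 ≤ j)
    (hK : 1 ≤ K) (hjK : j * K ≤ N)
    (hM : 1 ≤ M) (hQ : 1 ≤ Q) (hm : m ∈ Ico M (2 * M)) (hq : q ∈ Ico Q (2 * Q))
    (hmr : m.Coprime (r₁ * r₂)) (hq2 : q.Coprime (2 * m * (r₁ * r₂))) (hH : 1 ≤ H)
    (h2 : 2 * H < m * q * (r₁ * r₂)) :
    ‖(fG (W j K N) N g r₁ r₂ c μ m q : ℂ) - FG j K N g r₁ r₂ c₁ c μ H m q‖ ≤
      (#(Rt m) : ℝ) * #(Rt q) * ((m : ℝ) * q * ((r₁ * r₂ : ℕ) : ℝ) / (2 * K * H)) ^ (j - 1) := by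
  unfold fG FG
  split_ifs with h
  · rw [mem_Ico] at hm hq
    rw [Nat.coprime_mul_iff_right, Nat.coprime_mul_iff_right] at hq2
    exact rem_truncG j K N g m q r₁ r₂ c₁ c H hj hK hjK (by omega) (by omega) hA.h1 hA.h2 h.1 h.2.1
      hq2.1.2.symm (Nat.coprime_mul_iff_left.2 ⟨hmr, hq2.2⟩) hA.hrr hA.hg2 hA.hc hH h2
  · rw [Complex.ofReal_zero, sub_zero, norm_zero]
    positivity

/-- the coefficients -/
noncomputable def bt (b : ℕ → ℝ) (r₁ r₂ c μ : ℕ) (t : ℕ × ℕ × ℤ) : ℂ :=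
  (b t.1 : ℂ) * tw r₁ r₂ c μ t.1 t.2.2

theorem norm_bt (b : ℕ → ℝ) (hb : ∀ q, |b q| ≤ 1) (r₁ r₂ c μ : ℕ) (t : ℕ × ℕ × ℤ) :
    ‖bt b r₁ r₂ c μ t‖ ≤ 1 := by
  unfold bt
  rw [norm_mul, norm_tw, mul_one, Complex.norm_real]
  exact hb _

theorem tw_mod (r₁ r₂ c m q : ℕ) (h : ℤ) : tw r₁ r₂ c (m % r₂) q h = tw r₁ r₂ c m q h := by
  unfold tw
  rw [xs_mod]

/-- the sum over `q` of the truncated expansions is at most the full sum over `TT` -/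
theorem FG_le (j K N g r₁ r₂ c₁ c μ H Q m : ℕ) (b : ℕ → ℝ) (hbg : ∀ q, ¬ q.Coprime g → b q = 0) :
    ‖∑ q ∈ (Ico Q (2 * Q)).filter (fun q => Squarefree q ∧ q.Coprime (2 * m * (r₁ * r₂))),
        (b q : ℂ) * FG j K N g r₁ r₂ c₁ c μ H m q‖ ≤
      ‖∑ t ∈ (TT Q (r₁ * r₂) H).filter (fun t => m.Coprime t.1), bt b r₁ r₂ c μ t *
          ∑ ω ∈ Rt m, XK j K N g (r₁ * r₂) c₁ m ω t.1 t.2.1 t.2.2‖ := by
  by_cases hmg : m.Coprime g ∧ m % r₂ = μ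
  · obtain ⟨hmg, hμ⟩ := hmg
    refine le_of_eq ?_
    congr 1
    unfold bt
    rw [← sum_TT_filter Q (r₁ * r₂) H m
      (fun q σ h => (b q : ℂ) * tw r₁ r₂ c μ q h *
        ∑ ω ∈ Rt m, XK j K N g (r₁ * r₂) c₁ m ω q σ h)]
    refine sum_congr rfl fun q _ => ?_
    by_cases hqg : q.Coprime g
    · unfold FG
      rw [if_pos ⟨hmg, hqg, hμ⟩, ← hμ]
      simp only [tw_mod]
      simp only [mul_sum]
      rw [sum_comm (s := Rt m)]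
      refine sum_congr rfl fun σ _ => ?_
      rw [sum_comm (s := Rt m)]
      refine sum_congr rfl fun h _ => sum_congr rfl fun ω _ => ?_
      ring
    · rw [hbg q hqg]
      simp
  · have h0 : ∑ q ∈ (Ico Q (2 * Q)).filter (fun q => Squarefree q ∧
        q.Coprime (2 * m * (r₁ * r₂))), (b q : ℂ) * FG j K N g r₁ r₂ c₁ c μ H m q = 0 := by
      refine sum_eq_zero fun q _ => ?_
      unfold FG
      rw [if_neg (fun h => hmg ⟨h.1, h.2.2⟩), mul_zero]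
    rw [h0, norm_zero]
    exact norm_nonneg _

theorem blockG (hW : WeilBound) (ε : ℝ) (h0 : 0 < ε) (h1 : ε < 1 / 100) :
    ∃ j : ℕ, 2 ≤ j ∧ ∃ η : ℝ, 0 < η ∧ ∃ N₀ : ℕ, ∀ N : ℕ, N₀ ≤ N → ∀ g r₁ r₂ c₁ c μ : ℕ, 1 ≤ g →
      (g : ℝ) ≤ (N : ℝ) ^ (η / 12) → Adm g r₁ r₂ c₁ c →
      ((r₁ * r₂ : ℕ) : ℝ) ≤ (N : ℝ) ^ η → ∀ M Q : ℕ, 1 ≤ M → (M : ℝ) ≤ (N : ℝ) ^ (1 - ε) → 1 ≤ Q →
        (Q : ℝ) ≤ (N : ℝ) ^ (1 / 12 - ε) → ∀ b : ℕ → ℝ, (∀ q, |b q| ≤ 1) →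
          (∀ q, ¬ q.Coprime g → b q = 0) →
          ∑ m ∈ (Ico M (2 * M)).filter (fun m => m.Coprime (r₁ * r₂)),
            |∑ q ∈ (Ico Q (2 * Q)).filter (fun q => Squarefree q ∧ q.Coprime (2 * m * (r₁ * r₂))),
              b q * fG (W j (N / j) N) N g r₁ r₂ c μ m q| ≤ (N : ℝ) ^ (1 - 3 * η) := by
  set δ : ℝ := ε / 100 with hδ
  have hδ0 : 0 < δ := by positivity
  obtain ⟨C, hC, hsq⟩ := t1_sqG hW δ hδ0
  obtain ⟨j₀, hj₀⟩ := exists_nat_gt (2 / δ)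
  set j : ℕ := j₀ + 2 with hj
  have hj2 : 2 ≤ j := by omega
  have hjδ : 2 ≤ δ * ((j - 1 : ℕ) : ℝ) := by
    have h2 : (2 : ℝ) / δ ≤ ((j - 1 : ℕ) : ℝ) := by
      have : (j₀ : ℝ) ≤ ((j - 1 : ℕ) : ℝ) := by exact_mod_cast (by omega : j₀ ≤ j - 1)
      linarith
    have := (div_le_iff₀ hδ0).1 h2
    linarith
  set c : ℝ := C * (8 + 128 * (1 + 64 * Real.pi * j) ^ 2) + 8 with hc
  -- size conditions
  have e1 : ∀ᶠ N : ℕ in atTop, 288 * (j : ℝ) ≤ (N : ℝ) ^ (1 / 4 : ℝ) :=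
    ((tendsto_rpow_atTop (by norm_num : (0 : ℝ) < 1 / 4)).comp
      tendsto_natCast_atTop_atTop).eventually_ge_atTop _
  have e2 : ∀ᶠ N : ℕ in atTop, c ≤ (N : ℝ) ^ δ :=
    ((tendsto_rpow_atTop hδ0).comp tendsto_natCast_atTop_atTop).eventually_ge_atTop _
  obtain ⟨N₀, hN₀⟩ := eventually_atTop.1 (e1.and (e2.and (eventually_ge_atTop 1)))
  refine ⟨j, hj2, 12 * δ, by positivity, N₀, ?_⟩
  intro N hN g r₁ r₂ c₁ c' μ hg hgN hA hrN M Q hM hMN hQ hQN b hb hbg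
  have hr : 1 ≤ r₁ * r₂ := Nat.mul_pos hA.h1 hA.h2
  obtain ⟨f1, f2, f3⟩ := hN₀ N hN
  set n : ℝ := (N : ℝ) with hn
  have hn1 : 1 ≤ n := by rw [hn]; exact_mod_cast f3
  have hn0 : 0 < n := by linarith
  set w : ℝ := n ^ (1 / 12 : ℝ) with hw
  set u : ℝ := n ^ δ with hu
  have hw1 : 1 ≤ w := Real.one_le_rpow hn1 (by norm_num)
  have hu1 : 1 ≤ u := Real.one_le_rpow hn1 hδ0.le
  have hu0 : 0 < u := by linarith
  have powu : ∀ k : ℕ, u ^ k = n ^ (δ * k) := by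
    intro k
    rw [hu, Real.rpow_mul hn0.le, Real.rpow_natCast]
  have poww : ∀ k : ℕ, w ^ k = n ^ ((1 / 12 : ℝ) * k) := by
    intro k
    rw [hw, Real.rpow_mul hn0.le, Real.rpow_natCast]
  have hwn : w ^ 12 = n := by
    rw [poww]
    norm_num
  have key := block_auxK C hC j (N / j) N g (r₁ * r₂) M Q b (fun m q => fG (W j (N / j) N) N g r₁ r₂ c' μ m q)
    (fun H m q => FG j (N / j) N g r₁ r₂ c₁ c' μ H m q) n w u hj2 rfl hn hw1 hu1 hwn hg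
    (by
      rw [hu]
      have : 12 * δ / 12 = δ := by ring
      rw [this] at hgN
      exact hgN) hr hM hQ
    (by rw [powu]; refine hrN.trans (le_of_eq ?_); congr 1; push_cast; ring)
    (by
      rw [powu]
      calc (M : ℝ) * n ^ (δ * (100 : ℕ)) ≤ n ^ (1 - ε) * n ^ (δ * (100 : ℕ)) := by gcongr
        _ = n := by
          rw [← Real.rpow_add hn0]
          have : 1 - ε + δ * ((100 : ℕ) : ℝ) = 1 := by rw [hδ]; push_cast; ring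
          rw [this, Real.rpow_one])
    (by
      rw [powu]
      calc (Q : ℝ) * n ^ (δ * (100 : ℕ)) ≤ n ^ (1 / 12 - ε) * n ^ (δ * (100 : ℕ)) := by gcongr
        _ = w := by
          rw [← Real.rpow_add hn0, hw]
          congr 1
          rw [hδ]; push_cast; ring)
    hb
    (by
      rw [powu]
      calc n ^ 2 = n ^ (2 : ℝ) := by norm_num
        _ ≤ n ^ (δ * ((j - 1 : ℕ) : ℝ)) := Real.rpow_le_rpow_of_exponent_le hn1 hjδ)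
    (by
      rw [powu, poww]
      have g1 : n ^ (δ * (14 : ℕ)) ≤ n ^ (1 / 4 : ℝ) := by
        apply Real.rpow_le_rpow_of_exponent_le hn1
        rw [hδ]; push_cast; linarith
      calc 288 * (j : ℝ) * n ^ (δ * (14 : ℕ)) ≤ n ^ (1 / 4 : ℝ) * n ^ (1 / 4 : ℝ) := by gcongr
        _ = n ^ ((1 / 12 : ℝ) * (6 : ℕ)) := by
          rw [← Real.rpow_add hn0]
          norm_num)
    (by
      rw [powu, poww]
      apply Real.rpow_le_rpow_of_exponent_le hn1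
      rw [hδ]; push_cast; linarith)
    (fun hK1 m hm q hq hmr _ hq2 => fG_small j (N / j) N g r₁ r₂ c₁ c' μ M Q m q hA hj2 hK1
      (Nat.mul_div_le N j) hM hQ hm hq hmr hq2)
    (fun hK1 H hH m hm q hq hmr _ hq2 h2 => fG_trunc j (N / j) N g r₁ r₂ c₁ c' μ M Q m q H hA hj2 hK1
      (Nat.mul_div_le N j) hM hQ hm hq hmr hq2 hH h2)
    (fun hM2 hrN' hMN' hQN' hK1 H hH1 hHN => by
      refine le_trans ?_ (hsq j (N / j) N g (r₁ * r₂) c₁ M Q H (bt b r₁ r₂ c' μ) (by omega) hK1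
        (Nat.mul_div_le N j) hr hrN' hM2 hMN' hQ hQN' hH1 hg hHN (norm_bt b hb r₁ r₂ c' μ))
      refine pow_le_pow_left₀ (sum_nonneg fun _ _ => norm_nonneg _) ?_ 2
      exact sum_le_sum fun m _ => FG_le j (N / j) N g r₁ r₂ c₁ c' μ H Q m b hbg)
  set T : ℝ := ∑ m ∈ (Ico M (2 * M)).filter (fun m => m.Coprime (r₁ * r₂)),
      |∑ q ∈ (Ico Q (2 * Q)).filter (fun q => Squarefree q ∧ q.Coprime (2 * m * (r₁ * r₂))),
        b q * fG (W j (N / j) N) N g r₁ r₂ c' μ m q| with hT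
  have g2 : T * u ^ 45 ≤ u * n := by
    refine key.trans ?_
    gcongr
  have g3 : n ^ (1 - 3 * (12 * δ)) * u ^ 36 = n := by
    rw [powu, ← Real.rpow_add hn0]
    have : 1 - 3 * (12 * δ) + δ * ((36 : ℕ) : ℝ) = 1 := by push_cast; ring
    rw [this, Real.rpow_one]
  have g4 : T * u ^ 36 ≤ n := by
    have g5 : T * u ^ 36 * u ^ 9 ≤ n * u ^ 9 := by
      calc T * u ^ 36 * u ^ 9 = T * u ^ 45 := by ring
        _ ≤ u * n := g2
        _ = n * u ^ 1 := by ring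
        _ ≤ n * u ^ 9 := by
          gcongr
          norm_num
    exact le_of_mul_le_mul_right g5 (by positivity)
  have g6 : T * u ^ 36 ≤ n ^ (1 - 3 * (12 * δ)) * u ^ 36 := by rw [g3]; exact g4
  exact le_of_mul_le_mul_right g6 (by positivity)


end Pool.Agent.Work.MP_73869e_nt.BG
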