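import Mathlib
import Pool.Agent.Work.MP_73869e_nt.BG.GFin

set_option autoImplicit false

namespace Pool.Agent.Work.MP_73869e_nt.BG

open Finset Filter Pool.Agent.Work.MP_2dba45_nt.BilDef Pool.Agent.Work.MP_2dba45_nt.Bil
  Pool.Agent.Work.MP_73869e_nt.BK

theorem bilG (hW : WeilBound) : BILG := by
  intro ε hε0 hε1
  obtain ⟨j, hj, η, hη, N₁, hblk⟩ := blockG hW ε hε0 hε1
  have hj0 : (0 : ℝ) < j := by exact_mod_cast (by omega : 0 < j)
  -- `(log₂ N + 1)² ≤ N^{2η}`
  have e1 : ∀ᶠ N : ℕ in atTop, ((Nat.log 2 N : ℝ) + 1) ≤ (N : ℝ) ^ η := by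
    have h1 : ∀ᶠ x : ℝ in atTop, ‖Real.log x‖ ≤ (1 / 4) * ‖x ^ η‖ :=
      (isLittleO_log_rpow_atTop hη).bound (by norm_num)
    have h2 := tendsto_natCast_atTop_atTop (R := ℝ) |>.eventually h1
    have h3 : ∀ᶠ N : ℕ in atTop, (4 : ℝ) ≤ (N : ℝ) ^ η :=
      ((tendsto_rpow_atTop hη).comp tendsto_natCast_atTop_atTop).eventually_ge_atTop _
    filter_upwards [h2, h3, eventually_ge_atTop 1] with N a1 a2 a3
    have hN1 : (1 : ℝ) ≤ N := by exact_mod_cast a3
    have a4 : (Nat.log 2 N : ℝ) * Real.log 2 ≤ Real.log N := by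
      rw [← Real.log_pow]
      apply Real.log_le_log (by positivity)
      exact_mod_cast Nat.pow_log_le_self 2 (by omega)
    have a5 : (1 / 2 : ℝ) ≤ Real.log 2 := by
      have := Real.log_two_gt_d9
      linarith
    have a6 : (0 : ℝ) ≤ Nat.log 2 N := by positivity
    rw [Real.norm_of_nonneg (Real.log_nonneg hN1), Real.norm_of_nonneg (by positivity)] at a1
    nlinarith
  obtain ⟨N₂, hN₂⟩ := eventually_atTop.1 e1
  refine ⟨η / 12, by positivity, 1 / (2 * j), by positivity, max (max N₁ N₂) (2 * j), ?_⟩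
  intro N hN
  have hN1 : N₁ ≤ N := le_trans (le_trans (le_max_left _ _) (le_max_left _ _)) hN
  have hN2 : N₂ ≤ N := le_trans (le_trans (le_max_right _ _) (le_max_left _ _)) hN
  have hNj : 2 * j ≤ N := le_trans (le_max_right _ _) hN
  have hNone : 1 ≤ N := by omega
  have hn1 : (1 : ℝ) ≤ N := by exact_mod_cast hNone
  have hn0 : (0 : ℝ) < N := by linarith
  have hK1 : 1 ≤ N / j := by
    rw [Nat.one_le_div_iff (by omega)]
    omega
  have hjK : j * (N / j) ≤ N := Nat.mul_div_le N j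
  refine ⟨W j (N / j) N, fun n => ⟨W_nonneg _ _ _ _, W_le_one _ _ _ _ (by omega) hK1⟩,
    fun n hn => W_support _ _ _ _ (by omega) hK1 hjK hn, ?_, ?_⟩
  · rw [sum_W j (N / j) N (by omega) hK1 hjK]
    have h1 : N < j * (N / j) + j := by
      have := Nat.div_add_mod N j
      have h2 := Nat.mod_lt N (show 0 < j by omega)
      omega
    have h2 : (N : ℝ) < j * ((N / j : ℕ) : ℝ) + j := by exact_mod_cast h1
    have h3 : (2 : ℝ) * j ≤ N := by exact_mod_cast hNj
    rw [div_mul_eq_mul_div, div_le_iff₀ (by positivity)]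
    have h4 : ((N / j : ℕ) : ℝ) * (2 * j) = 2 * (j * ((N / j : ℕ) : ℝ)) := by ring
    linarith
  · intro g r c hg hgN hsqr hrN' M Q hM hQ b₀ hb₀
    have hr : 1 ≤ r := Nat.one_le_iff_ne_zero.2 hsqr.ne_zero
    have hrN : (r : ℝ) ≤ (N : ℝ) ^ η :=
      hrN'.trans (Real.rpow_le_rpow_of_exponent_le hn1 (by linarith))
    classical
    -- the splitting of the modulus
    set r₂ := Nat.gcd r g with hr₂
    obtain ⟨r₁, hr₁⟩ : r₂ ∣ r := Nat.gcd_dvd_left r g
    have hr12 : r = r₁ * r₂ := by rw [hr₁]; ring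
    have hr2pos : 1 ≤ r₂ := Nat.gcd_pos_of_pos_left g hr
    have hr1pos : 1 ≤ r₁ := by
      rcases Nat.eq_zero_or_pos r₁ with h | h
      · rw [h, zero_mul] at hr12
        omega
      · exact h
    have hrr : r₁.Coprime r₂ := by
      have := hr12 ▸ hsqr
      exact (Nat.squarefree_mul_iff.1 this).1
    have hr1g : r₁.Coprime g := by
      have h1 : Nat.gcd r₁ g ∣ r₂ := by
        rw [hr₂]
        exact Nat.dvd_gcd ((Nat.gcd_dvd_left _ _).trans ⟨r₂, hr12⟩) (Nat.gcd_dvd_right _ _)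
      have h2 : Nat.gcd r₁ g ∣ Nat.gcd r₁ r₂ := Nat.dvd_gcd (Nat.gcd_dvd_left _ _) h1
      rw [hrr] at h2
      exact Nat.dvd_one.1 h2
    obtain ⟨c₁, hc₁⟩ : ∃ c₁ : ℕ, g * c₁ ≡ c [MOD r₁] := by
      rcases Nat.lt_or_ge 1 r₁ with h1 | h1
      · obtain ⟨x, hx⟩ := Nat.exists_mul_mod_eq_one_of_coprime hr1g.symm h1
        refine ⟨x * c, ?_⟩
        have h2 : g * x ≡ 1 [MOD r₁] := by
          unfold Nat.ModEq
          rw [hx.2, Nat.mod_eq_of_lt h1]
        have h3 := Nat.ModEq.mul_right c h2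
        rw [one_mul, mul_assoc] at h3
        exact h3
      · have : r₁ = 1 := by omega
        rw [this]
        exact ⟨0, Nat.modEq_one⟩
    have hA : Adm g r₁ r₂ c₁ c := ⟨hr1pos, hr2pos, hrr, Nat.gcd_dvd_right r g, hc₁⟩
    set b : ℕ → ℝ := fun q => if q.Coprime g then b₀ q else 0 with hbdef
    have hb : ∀ q, |b q| ≤ 1 := by
      intro q
      rw [hbdef]
      simp only
      split_ifs
      · exact hb₀ q
      · rw [abs_zero]; norm_num
    have hred : ∑ m ∈ (Icc 1 ⌊M⌋₊).filter (fun m => m.Coprime (g * r)),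
        |∑ q ∈ (Icc 1 ⌊Q⌋₊).filter (fun q => Squarefree q ∧ q.Coprime (2 * m * (g * r))),
          b₀ q * RemG (W j (N / j) N) N (m * q) g r c| ≤
        ∑ μ ∈ range r₂, ∑ m ∈ (Icc 1 ⌊M⌋₊).filter (fun m => m.Coprime r),
        |∑ q ∈ (Icc 1 ⌊Q⌋₊).filter (fun q => Squarefree q ∧ q.Coprime (2 * m * r)),
          b q * fG (W j (N / j) N) N g r₁ r₂ c μ m q| := by
      have hsub : (Icc 1 ⌊M⌋₊).filter (fun m => m.Coprime (g * r)) ⊆
          (Icc 1 ⌊M⌋₊).filter (fun m => m.Coprime r) := by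
        intro m hm
        rw [mem_filter] at hm ⊢
        exact ⟨hm.1, (Nat.coprime_mul_iff_right.1 hm.2).2⟩
      rw [sum_comm]
      refine le_trans ?_ (sum_le_sum_of_subset_of_nonneg hsub
        fun m _ _ => sum_nonneg fun _ _ => abs_nonneg _)
      refine sum_le_sum fun m hm => ?_
      rw [mem_filter, Nat.coprime_mul_iff_right] at hm
      have hμ : m % r₂ ∈ range r₂ := mem_range.2 (Nat.mod_lt _ hr2pos)
      refine le_trans (le_of_eq ?_) (single_le_sum (f := fun μ =>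
        |∑ q ∈ (Icc 1 ⌊Q⌋₊).filter (fun q => Squarefree q ∧ q.Coprime (2 * m * r)),
          b q * fG (W j (N / j) N) N g r₁ r₂ c μ m q|) (fun μ _ => abs_nonneg _) hμ)
      congr 1
      rw [sum_filter, sum_filter]
      refine sum_congr rfl fun q _ => ?_
      by_cases h1 : Squarefree q ∧ q.Coprime (2 * m * r)
      · by_cases h2 : q.Coprime g
        · have h3 : Squarefree q ∧ q.Coprime (2 * m * (g * r)) := by
            refine ⟨h1.1, ?_⟩
            obtain ⟨h4, h5⟩ := Nat.coprime_mul_iff_right.1 h1.2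
            exact Nat.coprime_mul_iff_right.2 ⟨h4, Nat.coprime_mul_iff_right.2 ⟨h2, h5⟩⟩
          rw [if_pos h1, if_pos h3, hbdef]
          simp only
          unfold fG
          rw [if_pos h2, if_pos ⟨hm.2.1, h2, rfl⟩, ← hr12]
        · have h3 : ¬ (Squarefree q ∧ q.Coprime (2 * m * (g * r))) := by
            rintro ⟨_, h4⟩
            exact h2 (Nat.coprime_mul_iff_right.1 (Nat.coprime_mul_iff_right.1 h4).2).1
          rw [if_pos h1, if_neg h3, hbdef]
          simp only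
          rw [if_neg h2, zero_mul]
      · have h3 : ¬ (Squarefree q ∧ q.Coprime (2 * m * (g * r))) := by
          rintro ⟨h4, h5⟩
          obtain ⟨h6, h7⟩ := Nat.coprime_mul_iff_right.1 h5
          exact h1 ⟨h4, Nat.coprime_mul_iff_right.2 ⟨h6, (Nat.coprime_mul_iff_right.1 h7).2⟩⟩
        rw [if_neg h1, if_neg h3]
    refine hred.trans ?_
    have hr2N : (r₂ : ℝ) ≤ (N : ℝ) ^ (η / 12) := by
      have h1 : r₂ ≤ g := Nat.gcd_le_right r hg
      have h2 : (r₂ : ℝ) ≤ g := by exact_mod_cast h1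
      exact h2.trans hgN
    have hfin : (N : ℝ) ^ (η / 12) * (N : ℝ) ^ (1 - η) ≤ (N : ℝ) ^ (1 - η / 12) := by
      rw [← Real.rpow_add hn0]
      exact Real.rpow_le_rpow_of_exponent_le hn1 (by linarith)
    refine le_trans ?_ hfin
    have hsuff : ∀ μ ∈ range r₂, ∑ m ∈ (Icc 1 ⌊M⌋₊).filter (fun m => m.Coprime r),
        |∑ q ∈ (Icc 1 ⌊Q⌋₊).filter (fun q => Squarefree q ∧ q.Coprime (2 * m * r)),
          b q * fG (W j (N / j) N) N g r₁ r₂ c μ m q| ≤ (N : ℝ) ^ (1 - η) := by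
      intro μ _
      have hlog := hN₂ N hN2
      -- the two dyadic decompositions
      have hMN : ⌊M⌋₊ ≤ N := by
        have h1 : M ≤ N := by
          refine hM.trans ?_
          calc (N : ℝ) ^ (1 - ε) ≤ (N : ℝ) ^ (1 : ℝ) :=
                Real.rpow_le_rpow_of_exponent_le hn1 (by linarith)
            _ = N := Real.rpow_one _
        exact Nat.floor_le_of_le h1
      have hQN : ⌊Q⌋₊ ≤ N := by
        have h1 : Q ≤ N := by
          refine hQ.trans ?_
          calc (N : ℝ) ^ (1 / 12 - ε) ≤ (N : ℝ) ^ (1 : ℝ) :=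
                Real.rpow_le_rpow_of_exponent_le hn1 (by linarith)
            _ = N := Real.rpow_one _
        exact Nat.floor_le_of_le h1
      by_cases hM1 : 1 ≤ ⌊M⌋₊
      swap
      · have : ⌊M⌋₊ = 0 := by omega
        rw [this]
        simp only [Icc_eq_empty (by norm_num : ¬ (1 : ℕ) ≤ 0), filter_empty, sum_empty]
        positivity
      by_cases hQ1 : 1 ≤ ⌊Q⌋₊
      swap
      · have : ⌊Q⌋₊ = 0 := by omega
        rw [this]
        simp only [Icc_eq_empty (by norm_num : ¬ (1 : ℕ) ≤ 0), filter_empty, sum_empty, abs_zero,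
          sum_const_zero]
        positivity
      have hM0 : 0 ≤ M := by
        by_contra hcon
        have : ⌊M⌋₊ = 0 := Nat.floor_of_nonpos (by linarith)
        omega
      have hQ0 : 0 ≤ Q := by
        by_contra hcon
        have : ⌊Q⌋₊ = 0 := Nat.floor_of_nonpos (by linarith)
        omega
      -- inner sums
      have hin : ∀ m : ℕ, |∑ q ∈ (Icc 1 ⌊Q⌋₊).filter (fun q => Squarefree q ∧
          q.Coprime (2 * m * r)), b q * fG (W j (N / j) N) N g r₁ r₂ c μ m q| ≤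
          ∑ l ∈ range (Nat.log 2 ⌊Q⌋₊ + 1), |∑ q ∈ (Ico (2 ^ l) (2 * 2 ^ l)).filter
            (fun q => Squarefree q ∧ q.Coprime (2 * m * r)),
            (if q ≤ ⌊Q⌋₊ then b q else 0) * fG (W j (N / j) N) N g r₁ r₂ c μ m q| := by
        intro m
        rw [sum_filter, dyadic]
        refine (abs_sum_le_sum_abs _ _).trans (le_of_eq ?_)
        refine sum_congr rfl fun l _ => ?_
        congr 1
        rw [sum_filter]
        refine sum_congr rfl fun q _ => ?_
        by_cases h5 : q ≤ ⌊Q⌋₊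
        · by_cases h6 : Squarefree q ∧ q.Coprime (2 * m * r)
          · rw [if_pos h5, if_pos h6, if_pos h6, if_pos h5]
          · rw [if_pos h5, if_neg h6, if_neg h6]
        · rw [if_neg h5]
          by_cases h6 : Squarefree q ∧ q.Coprime (2 * m * r)
          · rw [if_pos h6, if_neg h5, zero_mul]
          · rw [if_neg h6]
      have hout : ∑ m ∈ (Icc 1 ⌊M⌋₊).filter (fun m => m.Coprime r),
          |∑ q ∈ (Icc 1 ⌊Q⌋₊).filter (fun q => Squarefree q ∧ q.Coprime (2 * m * r)),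
            b q * fG (W j (N / j) N) N g r₁ r₂ c μ m q| ≤
          ∑ i ∈ range (Nat.log 2 ⌊M⌋₊ + 1), ∑ l ∈ range (Nat.log 2 ⌊Q⌋₊ + 1),
            ∑ m ∈ (Ico (2 ^ i) (2 * 2 ^ i)).filter (fun m => m.Coprime r),
              |∑ q ∈ (Ico (2 ^ l) (2 * 2 ^ l)).filter
                (fun q => Squarefree q ∧ q.Coprime (2 * m * r)),
                (if q ≤ ⌊Q⌋₊ then b q else 0) * fG (W j (N / j) N) N g r₁ r₂ c μ m q| := by
        rw [sum_filter, dyadic]
        refine sum_le_sum fun i _ => ?_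
        rw [sum_comm, sum_filter]
        refine sum_le_sum fun m _ => ?_
        by_cases h5 : m.Coprime r
        · rw [if_pos h5, if_pos h5]
          by_cases h6 : m ≤ ⌊M⌋₊
          · rw [if_pos h6]
            exact hin m
          · rw [if_neg h6]
            exact sum_nonneg fun _ _ => abs_nonneg _
        · rw [if_neg h5, if_neg h5]
          split_ifs <;> exact le_rfl
      refine hout.trans ?_
      have hblock : ∀ i ∈ range (Nat.log 2 ⌊M⌋₊ + 1), ∀ l ∈ range (Nat.log 2 ⌊Q⌋₊ + 1),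
          ∑ m ∈ (Ico (2 ^ i) (2 * 2 ^ i)).filter (fun m => m.Coprime r),
              |∑ q ∈ (Ico (2 ^ l) (2 * 2 ^ l)).filter
                (fun q => Squarefree q ∧ q.Coprime (2 * m * r)),
                (if q ≤ ⌊Q⌋₊ then b q else 0) * fG (W j (N / j) N) N g r₁ r₂ c μ m q| ≤
            (N : ℝ) ^ (1 - 3 * η) := by
        intro i hi l hl
        rw [mem_range] at hi hl
        have h5 : 2 ^ i ≤ ⌊M⌋₊ :=
          (Nat.pow_le_pow_right (by norm_num) (by omega)).trans (Nat.pow_log_le_self 2 (by omega))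
        have h6 : 2 ^ l ≤ ⌊Q⌋₊ :=
          (Nat.pow_le_pow_right (by norm_num) (by omega)).trans (Nat.pow_log_le_self 2 (by omega))
        have h7 : ((2 ^ i : ℕ) : ℝ) ≤ (N : ℝ) ^ (1 - ε) := by
          have : ((2 ^ i : ℕ) : ℝ) ≤ (⌊M⌋₊ : ℝ) := by exact_mod_cast h5
          exact this.trans ((Nat.floor_le hM0).trans hM)
        have h8 : ((2 ^ l : ℕ) : ℝ) ≤ (N : ℝ) ^ (1 / 12 - ε) := by
          have : ((2 ^ l : ℕ) : ℝ) ≤ (⌊Q⌋₊ : ℝ) := by exact_mod_cast h6
          exact this.trans ((Nat.floor_le hQ0).trans hQ)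
        have hrN2 : ((r₁ * r₂ : ℕ) : ℝ) ≤ (N : ℝ) ^ η := by rw [← hr12]; exact hrN
        have hb3 : ∀ q, |(fun q => if q ≤ ⌊Q⌋₊ then b q else 0) q| ≤ 1 := by
          intro q
          show |if q ≤ ⌊Q⌋₊ then b q else 0| ≤ 1
          split_ifs
          · exact hb q
          · rw [abs_zero]; norm_num
        have hb4 : ∀ q, ¬ q.Coprime g → (fun q => if q ≤ ⌊Q⌋₊ then b q else 0) q = 0 := by
          intro q hq
          show (if q ≤ ⌊Q⌋₊ then b q else 0) = 0
          split_ifs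
          · rw [hbdef]
            simp only
            rw [if_neg hq]
          · rfl
        have hB := hblk N hN1 g r₁ r₂ c₁ c μ hg hgN hA hrN2 (2 ^ i) (2 ^ l) Nat.one_le_two_pow h7
          Nat.one_le_two_pow h8 (fun q => if q ≤ ⌊Q⌋₊ then b q else 0) hb3 hb4
        simpa only [← hr12] using hB
      refine (sum_le_sum fun i hi => sum_le_sum fun l hl => hblock i hi l hl).trans ?_
      rw [sum_const, sum_const, card_range, card_range, nsmul_eq_mul, nsmul_eq_mul]
      have h9 : ((Nat.log 2 ⌊M⌋₊ + 1 : ℕ) : ℝ) ≤ (N : ℝ) ^ η := by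
        refine le_trans ?_ hlog
        push_cast
        have := Nat.log_mono_right (b := 2) hMN
        have h10 : (Nat.log 2 ⌊M⌋₊ : ℝ) ≤ Nat.log 2 N := by exact_mod_cast this
        linarith
      have h10 : ((Nat.log 2 ⌊Q⌋₊ + 1 : ℕ) : ℝ) ≤ (N : ℝ) ^ η := by
        refine le_trans ?_ hlog
        push_cast
        have := Nat.log_mono_right (b := 2) hQN
        have h10 : (Nat.log 2 ⌊Q⌋₊ : ℝ) ≤ Nat.log 2 N := by exact_mod_cast this
        linarith
      calc ((Nat.log 2 ⌊M⌋₊ + 1 : ℕ) : ℝ) * (((Nat.log 2 ⌊Q⌋₊ + 1 : ℕ) : ℝ) *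
            (N : ℝ) ^ (1 - 3 * η))
          ≤ (N : ℝ) ^ η * ((N : ℝ) ^ η * (N : ℝ) ^ (1 - 3 * η)) := by gcongr
        _ = (N : ℝ) ^ (1 - η) := by
            rw [← Real.rpow_add hn0, ← Real.rpow_add hn0]
            congr 1
            ring

    calc ∑ μ ∈ range r₂, ∑ m ∈ (Icc 1 ⌊M⌋₊).filter (fun m => m.Coprime r),
        |∑ q ∈ (Icc 1 ⌊Q⌋₊).filter (fun q => Squarefree q ∧ q.Coprime (2 * m * r)),
          b q * fG (W j (N / j) N) N g r₁ r₂ c μ m q|
        ≤ ∑ _μ ∈ range r₂, (N : ℝ) ^ (1 - η) := sum_le_sum hsuff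
      _ = r₂ * (N : ℝ) ^ (1 - η) := by rw [sum_const, card_range, nsmul_eq_mul]
      _ ≤ (N : ℝ) ^ (η / 12) * (N : ℝ) ^ (1 - η) := by gcongr

end Pool.Agent.Work.MP_73869e_nt.BG
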